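import Mathlib

/-! The algebraic entropy of a continuous endomorphism of `K ^ ℕ` is `0` or `∞`. -/

set_option maxHeartbeats 400000

namespace Pool.Agent.Results.MP_e13f3c_al.Dichotomy

open Filter Topology

variable {G : Type} [AddCommGroup G]

/-- `T_n(φ, F) = F + φ F + ⋯ + φ^(n-1) F`. -/
def T (φ : AddMonoid.End G) (F : AddSubgroup G) : ℕ → AddSubgroup G
  | 0 => ⊥
  | n + 1 => T φ F n ⊔ F.map (φ ^ n : AddMonoid.End G)

/-- `H(φ, F)`, the limit (written as an upper limit) of `log |T_n(φ, F)| / n`. -/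
noncomputable def H (φ : AddMonoid.End G) (F : AddSubgroup G) : ENNReal :=
  limsup (fun n : ℕ => ENNReal.ofReal (Real.log (Nat.card (T φ F n)) / n)) atTop

/-- The algebraic entropy: the supremum of `H(φ, F)` over the finite subgroups `F`. -/
noncomputable def ent (φ : AddMonoid.End G) : ENNReal :=
  ⨆ (F : AddSubgroup G) (_ : Finite F), H φ F

lemma fin_sup {A B : AddSubgroup G} (hA : Finite A) (hB : Finite B) : Finite (A ⊔ B : AddSubgroup G) := by
  refine Set.Finite.subset (Set.Finite.image2 (· + ·) (Set.toFinite (A : Set G))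
    (Set.toFinite (B : Set G))) fun x hx => ?_
  obtain ⟨a, ha, b, hb, rfl⟩ := AddSubgroup.mem_sup.1 hx
  exact ⟨a, ha, b, hb, rfl⟩

lemma fin_T (φ : AddMonoid.End G) {F : AddSubgroup G} (hF : Finite F) (n : ℕ) :
    Finite (T φ F n) := by
  induction n with
  | zero => rw [T]; infer_instance
  | succ n ih =>
    exact fin_sup ih (Set.Finite.image _ (Set.toFinite (F : Set G)))

lemma mem_T (φ : AddMonoid.End G) {F : AddSubgroup G} {x : G} (hx : x ∈ F) {i n : ℕ} (h : i < n) :
    (φ ^ i) x ∈ T φ F n := by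
  induction n with
  | zero => omega
  | succ n ih =>
    rcases Nat.lt_succ_iff_lt_or_eq.1 h with h | rfl
    · exact AddSubgroup.mem_sup_left (ih h)
    · exact AddSubgroup.mem_sup_right ⟨x, hx, rfl⟩

lemma T_le (φ : AddMonoid.End G) {F U : AddSubgroup G} (n : ℕ)
    (h : ∀ x ∈ F, ∀ i < n, (φ ^ i) x ∈ U) : T φ F n ≤ U := by
  induction n with
  | zero => exact bot_le
  | succ n ih =>
    refine sup_le (ih fun x hx i hi => h x hx i (by omega)) ?_
    rintro _ ⟨x, hx, rfl⟩
    exact h x hx n (by omega)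

/-- A monic polynomial in `φ`. -/
def op (φ : AddMonoid.End G) (j : ℕ) (c : Fin j → ℤ) : G →+ G where
  toFun y := (φ ^ j) y - ∑ i, c i • (φ ^ (i : ℕ)) y
  map_zero' := by simp
  map_add' x y := by
    simp only [map_add, smul_add, Finset.sum_add_distrib]
    abel

lemma op_apply (φ : AddMonoid.End G) (j : ℕ) (c : Fin j → ℤ) (y : G) :
    op φ j c y = (φ ^ j) y - ∑ i, c i • (φ ^ (i : ℕ)) y := rfl

lemma pw (φ : AddMonoid.End G) (a b : ℕ) (x : G) : (φ ^ a) ((φ ^ b) x) = (φ ^ (a + b)) x := by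
  rw [pow_add]; rfl

lemma ent_zero (φ : AddMonoid.End G) (j : ℕ) (c : Fin j → ℤ) (hD : Finite (op φ j c).range) :
    ent φ = 0 := by
  refine le_antisymm (iSup₂_le fun F hF => ?_) zero_le
  have hU := fin_sup (fin_T φ hF j) hD
  have key : ∀ x ∈ F, ∀ m, (φ ^ m) x ∈ T φ F j ⊔ (op φ j c).range := by
    intro x hx m
    induction m using Nat.strong_induction_on with
    | _ m ih =>
      by_cases h : m < j
      · exact AddSubgroup.mem_sup_left (mem_T φ hx h)
      · have e : (φ ^ m) x = op φ j c ((φ ^ (m - j)) x) + ∑ i, c i • (φ ^ ((i : ℕ) + (m - j))) x := by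
          simp only [op_apply, pw, show j + (m - j) = m by omega, sub_add_cancel]
        rw [e]
        refine add_mem (AddSubgroup.mem_sup_right ⟨_, rfl⟩) (sum_mem fun i _ => ?_)
        exact zsmul_mem (ih _ (by have := i.2; omega)) _
  have lim : Tendsto (fun n : ℕ => ENNReal.ofReal
      (Real.log (Nat.card (T φ F j ⊔ (op φ j c).range : AddSubgroup G)) / n)) atTop (𝓝 0) := by
    simpa using ENNReal.tendsto_ofReal (tendsto_const_div_atTop_nhds_zero_nat
      (Real.log (Nat.card (T φ F j ⊔ (op φ j c).range : AddSubgroup G))))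
  rw [← lim.limsup_eq]
  refine limsup_le_limsup (Eventually.of_forall fun n => ENNReal.ofReal_le_ofReal ?_)
  have := fin_T φ hF n
  refine div_le_div_of_nonneg_right (Real.log_le_log (by exact_mod_cast Nat.card_pos) ?_)
    (Nat.cast_nonneg n)
  exact_mod_cast AddSubgroup.card_le_of_le (T_le φ n fun x hx i _ => key x hx i)

lemma double {A B : AddSubgroup G} (hB : Finite B) (h : A ≤ B) {x : G} (h1 : x ∈ B) (h2 : x ∉ A) :
    2 * Nat.card A ≤ Nat.card B := by
  obtain ⟨k, hk⟩ := AddSubgroup.card_dvd_of_le h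
  have hp : 0 < Nat.card B := Nat.card_pos
  have h1 : k ≠ 1 := by
    rintro rfl
    exact h2 (AddSubgroup.eq_of_le_of_card_ge h (by omega) ▸ h1)
  have h0 : k ≠ 0 := by
    rintro rfl
    omega
  rw [hk, mul_comm]
  exact Nat.mul_le_mul_left _ (by omega)

lemma step (φ : AddMonoid.End G) (tor : ∀ y : G, Finite (AddSubgroup.zmultiples y))
    {F : AddSubgroup G} (hF : Finite F) (y : G) (hy : ∀ j c n, op φ j c y ∉ T φ F n) (n : ℕ) :
    2 ^ n * Nat.card (T φ F n) ≤ Nat.card (T φ (F ⊔ AddSubgroup.zmultiples y) n) := by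
  have key : ∀ j ≤ n, ∃ B : AddSubgroup G, B ≤ T φ (F ⊔ AddSubgroup.zmultiples y) n ∧
      2 ^ j * Nat.card (T φ F n) ≤ Nat.card B ∧
      ∀ x ∈ B, ∃ t ∈ T φ F n, ∃ c : Fin j → ℤ, x = t + ∑ i, c i • (φ ^ (i : ℕ)) y := by
    intro j hj
    induction j with
    | zero =>
      refine ⟨T φ F n, T_le φ n fun x hx i hi => mem_T φ (AddSubgroup.mem_sup_left hx) hi,
        by simp, fun x hx => ⟨x, hx, fun _ => 0, by simp⟩⟩
    | succ j ih =>
      obtain ⟨B, h1, h2, h3⟩ := ih (by omega)
      have hle : B ⊔ AddSubgroup.zmultiples ((φ ^ j) y) ≤ T φ (F ⊔ AddSubgroup.zmultiples y) n :=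
        sup_le h1 (AddSubgroup.zmultiples_le.2
          (mem_T φ (AddSubgroup.mem_sup_right (AddSubgroup.mem_zmultiples y)) (by omega)))
      refine ⟨B ⊔ AddSubgroup.zmultiples ((φ ^ j) y), hle, ?_, ?_⟩
      · have hf : Finite (B ⊔ AddSubgroup.zmultiples ((φ ^ j) y) : AddSubgroup G) :=
          Set.Finite.subset (fin_T φ (fin_sup hF (tor y)) n) hle
        have := double hf le_sup_left
          (AddSubgroup.mem_sup_right (AddSubgroup.mem_zmultiples ((φ ^ j) y))) (by
            intro hm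
            obtain ⟨t, ht, c, e⟩ := h3 _ hm
            refine hy j c n ?_
            rw [op_apply, e, add_sub_cancel_right]
            exact ht)
        rw [pow_succ]
        nlinarith
      · intro x hx
        obtain ⟨b, hb, z, ⟨k, rfl⟩, rfl⟩ := AddSubgroup.mem_sup.1 hx
        obtain ⟨t, ht, c, rfl⟩ := h3 b hb
        refine ⟨t, ht, Fin.snoc c k, ?_⟩
        simp [Fin.sum_univ_castSucc, add_assoc]
  obtain ⟨B, h1, h2, -⟩ := key n le_rfl
  have := fin_T φ (fin_sup hF (tor y)) n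
  exact h2.trans (AddSubgroup.card_le_of_le h1)

lemma ent_top (φ : AddMonoid.End G) (tor : ∀ y : G, Finite (AddSubgroup.zmultiples y))
    (h : ∀ F : AddSubgroup G, Finite F → ∃ y, ∀ j c n, op φ j c y ∉ T φ F n) : ent φ = ⊤ := by
  have key : ∀ r : ℕ, ∃ F : AddSubgroup G, Finite F ∧ ∀ n, 2 ^ (r * n) ≤ Nat.card (T φ F n) := by
    intro r
    induction r with
    | zero =>
      refine ⟨⊥, inferInstance, fun n => ?_⟩
      have := fin_T φ (F := ⊥) inferInstance n
      simpa using Nat.succ_le_of_lt (Nat.card_pos (α := T φ ⊥ n))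
    | succ r ih =>
      obtain ⟨F, hF, h1⟩ := ih
      obtain ⟨y, hy⟩ := h F hF
      refine ⟨_, fin_sup hF (tor y), fun n => le_trans ?_ (step φ tor hF y hy n)⟩
      rw [show (r + 1) * n = n + r * n by ring, pow_add]
      exact Nat.mul_le_mul_left _ (h1 n)
  refine ENNReal.eq_top_of_forall_nnreal_le fun s => ?_
  have l2 : 0 < Real.log 2 := Real.log_pos (by norm_num)
  obtain ⟨r, hr⟩ := exists_nat_ge ((s : ℝ) / Real.log 2)
  obtain ⟨F, hF, h1⟩ := key r
  refine le_trans ?_ (le_iSup₂ (f := fun (F : AddSubgroup G) (_ : Finite F) => H φ F) F hF)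
  refine le_limsup_of_frequently_le (Eventually.frequently ?_)
  filter_upwards [eventually_gt_atTop 0] with n hn
  rw [← ENNReal.ofReal_coe_nnreal]
  refine ENNReal.ofReal_le_ofReal ?_
  have hn' : (0 : ℝ) < n := by exact_mod_cast hn
  have h2 : Real.log (((2 : ℕ) ^ (r * n) : ℕ) : ℝ) ≤ Real.log (Nat.card (T φ F n)) :=
    Real.log_le_log (by positivity) (by exact_mod_cast h1 n)
  rw [le_div_iff₀ hn']
  rw [div_le_iff₀ l2] at hr
  push_cast at h2
  rw [Real.log_pow] at h2
  push_cast at h2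
  nlinarith

theorem result (K : Type) [AddCommGroup K] [Finite K] [TopologicalSpace K] [DiscreteTopology K]
    (φ : AddMonoid.End (ℕ → K)) (hφ : Continuous φ) : ent φ = 0 ∨ ent φ = ⊤ := by
  have cp : ∀ i : ℕ, Continuous (φ ^ i : AddMonoid.End (ℕ → K)) := by
    intro i
    induction i with
    | zero => exact continuous_id
    | succ i ih => rw [pow_succ]; exact ih.comp hφ
  have co : ∀ j c, Continuous (op φ j c) := fun j c =>
    (cp j).sub (continuous_finset_sum _ fun i _ => (cp i).zsmul _)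
  have tor : ∀ y : ℕ → K, Finite (AddSubgroup.zmultiples y) := fun y =>
    finite_zmultiples.2 (isOfFinAddOrder_iff_nsmul_eq_zero.2
      ⟨Nat.card K, Nat.card_pos, funext fun _ => card_nsmul_eq_zero'⟩)
  by_cases h : ∀ F : AddSubgroup (ℕ → K), Finite F → ∃ y, ∀ j c n, op φ j c y ∉ T φ F n
  · exact Or.inr (ent_top φ tor h)
  left
  push Not at h
  obtain ⟨F, hF, h⟩ := h
  have := fin_T φ hF
  obtain ⟨⟨⟨j, c⟩, n, t⟩, y, hy⟩ := nonempty_interior_of_iUnion_of_closed
    (ι := (Σ j : ℕ, Fin j → ℤ) × Σ n : ℕ, T φ F n)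
    (f := fun i => {y | op φ i.1.1 i.1.2 y = i.2.2})
    (fun i => isClosed_eq (co _ _) continuous_const) (by
      refine Set.eq_univ_of_forall fun y => ?_
      obtain ⟨j, c, n, h⟩ := h y
      exact Set.mem_iUnion.2 ⟨⟨⟨j, c⟩, n, _, h⟩, rfl⟩)
  have h0 : op φ j c y = t := (interior_subset hy :)
  have h1 : ((op φ j c).ker : Set (ℕ → K)) ∈ 𝓝 0 := by
    have ct : ContinuousAt (fun z : ℕ → K => z + y) 0 := by fun_prop
    have hm := mem_interior_iff_mem_nhds.1 hy
    refine mem_of_superset (ct.preimage_mem_nhds (by simpa using hm)) fun z hz => ?_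
    have hz' : op φ j c (z + y) = t := hz
    rw [map_add, h0] at hz'
    simpa using hz'
  have h2 := AddSubgroup.quotient_finite_of_isOpen _ (AddSubgroup.isOpen_of_mem_nhds _ h1)
  exact ent_zero φ j c (Finite.of_equiv _ (QuotientAddGroup.quotientKerEquivRange _).toEquiv)

end Pool.Agent.Results.MP_e13f3c_al.Dichotomy
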